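import Pool.Agent.H1.TIE.Mono

/-!
# STEP V: the induction over the pairs

`StepS`, `AllS`: the step and the conclusion, with the degree before the errors. `all_of`: the
step gives the conclusion.
-/

set_option autoImplicit false

namespace Pool.TIE

open Finset MvPolynomial
open Pool.Agent.H49.Ent Pool.Agent.H32.Dense Pool.STK Pool.BFL

/-- **One step**, the degree before the errors. -/
def StepS : Prop :=
  ∀ (m K : ℕ) (c₀ : ℝ), 0 < c₀ → ∃ K' : ℕ, ∀ ε : ℝ, 0 < ε → ∃ (h₁ : ℕ) (κ' κ π c₁ ι : ℝ),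
    0 < κ' ∧ κ' ≤ 1 ∧ 0 < κ ∧ 0 < π ∧ 0 < c₁ ∧ 0 < ι ∧
    ∀ (D : Dat m) (M : Finset (Fin m)) (c c' : Fin m) (h : ℕ) (F F' : D.Ω → Pl m), c ∈ M →
      c' ∈ M → c < c' → h₁ ≤ h → h ≤ D.h₀ → Hyp D K (ι * h) (ι * h) →
      NFd D h c₀ κ π → FulM D M c c' (ι * h) →
      Claim D (M.erase c) h K (ι * h) (ι * h) F → Claim D (M.erase c') h K (ι * h) (ι * h) F' →
      ∃ (Ω' : Type) (_ : Fintype Ω') (q : Ω' → ℝ) (f : Ω' → D.Ω) (h' : ℕ) (G : Ω' → Pl m),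
        SubL D.p c₁ q f ∧ κ' * h ≤ h' ∧ h' ≤ h ∧
        Claim (D.pull q f) M h' K' (ε * h') (ε * h') G

/-- **STEP V**, the degree before the errors. -/
def AllS : Prop :=
  ∀ (m K : ℕ) (c₀ : ℝ), 0 < c₀ → ∃ K' : ℕ, ∀ ε : ℝ, 0 < ε → ∃ (h₁ : ℕ) (κ' κ π c₁ ι : ℝ),
    0 < κ' ∧ κ' ≤ 1 ∧ 0 < κ ∧ 0 < π ∧ 0 < c₁ ∧ 0 < ι ∧
    ∀ (D : Dat m) (sd : Fin m → Bool) (rk : Fin m → ℕ) (F₁ F₂ : D.Ω → Pl m), h₁ ≤ D.h₀ →
      (∀ c c', rk c = rk c' → sd c = sd c' → c = c') →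
      Hyp D K (ι * D.h₀) (ι * D.h₀) → NFd D D.h₀ c₀ κ π →
      (∀ i j, ∀ c c', sd c = true → sd c' = false → rk c = i → rk c' = j →
        FulM D (univ.filter fun a => (sd a = true ∧ rk a ≤ i) ∨ (sd a = false ∧ rk a ≤ j)) c c'
          (ι * D.h₀)) →
      Claim D (univ.filter fun a => sd a = true) D.h₀ K (ι * D.h₀) (ι * D.h₀) F₁ →
      Claim D (univ.filter fun a => sd a = false) D.h₀ K (ι * D.h₀) (ι * D.h₀) F₂ →
      ∃ (Ω' : Type) (_ : Fintype Ω') (q : Ω' → ℝ) (f : Ω' → D.Ω) (h' : ℕ) (G : Ω' → Pl m),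
        SubL D.p c₁ q f ∧ κ' * D.h₀ ≤ h' ∧ h' ≤ D.h₀ ∧
        Claim (D.pull q f) univ h' K' (ε * h') (ε * h') G

/-- **STEP V at a free height**: the same at any height `h ≤ D.h₀`. -/
def AllH : Prop :=
  ∀ (m K : ℕ) (c₀ : ℝ), 0 < c₀ → ∃ K' : ℕ, ∀ ε : ℝ, 0 < ε → ∃ (h₁ : ℕ) (κ' κ π c₁ ι : ℝ),
    0 < κ' ∧ κ' ≤ 1 ∧ 0 < κ ∧ 0 < π ∧ 0 < c₁ ∧ 0 < ι ∧
    ∀ (D : Dat m) (sd : Fin m → Bool) (rk : Fin m → ℕ) (h : ℕ) (F₁ F₂ : D.Ω → Pl m), h₁ ≤ h →
      h ≤ D.h₀ → (∀ c c', rk c = rk c' → sd c = sd c' → c = c') →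
      Hyp D K (ι * h) (ι * h) → NFd D h c₀ κ π →
      (∀ i j, ∀ c c', sd c = true → sd c' = false → rk c = i → rk c' = j →
        FulM D (univ.filter fun a => (sd a = true ∧ rk a ≤ i) ∨ (sd a = false ∧ rk a ≤ j)) c c'
          (ι * h)) →
      Claim D (univ.filter fun a => sd a = true) h K (ι * h) (ι * h) F₁ →
      Claim D (univ.filter fun a => sd a = false) h K (ι * h) (ι * h) F₂ →
      ∃ (Ω' : Type) (_ : Fintype Ω') (q : Ω' → ℝ) (f : Ω' → D.Ω) (h' : ℕ) (G : Ω' → Pl m),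
        SubL D.p c₁ q f ∧ κ' * h ≤ h' ∧ h' ≤ h ∧
        Claim (D.pull q f) univ h' K' (ε * h') (ε * h') G

variable {m : ℕ}

/-- The coordinates with `sd`, rank below `i`, and the coordinates without `sd`, rank below
`j`. -/
def MN (sd : Fin m → Bool) (rk : Fin m → ℕ) (i j : ℕ) : Finset (Fin m) :=
  univ.filter fun a => (sd a = true ∧ rk a < i) ∨ (sd a = false ∧ rk a < j)

theorem mem_MN {sd : Fin m → Bool} {rk : Fin m → ℕ} {i j : ℕ} {a : Fin m} :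
    a ∈ MN sd rk i j ↔ (sd a = true ∧ rk a < i) ∨ (sd a = false ∧ rk a < j) := by
  unfold MN
  simp

theorem MN_erase_l {sd : Fin m → Bool} {rk : Fin m → ℕ}
    (inj : ∀ c c', rk c = rk c' → sd c = sd c' → c = c') {c : Fin m} (hc : sd c = true) (j : ℕ) :
    (MN sd rk (rk c + 1) j).erase c = MN sd rk (rk c) j := by
  ext a
  rw [Finset.mem_erase, mem_MN, mem_MN]
  constructor
  · rintro ⟨h1, h2 | h2⟩
    · refine Or.inl ⟨h2.1, lt_of_le_of_ne (by omega) fun h3 => h1 ?_⟩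
      exact inj a c h3 (h2.1.trans hc.symm)
    · exact Or.inr h2
  · rintro (h2 | h2)
    · refine ⟨fun h3 => ?_, Or.inl ⟨h2.1, by omega⟩⟩
      subst h3
      exact absurd h2.2 (lt_irrefl _)
    · refine ⟨fun h3 => ?_, Or.inr h2⟩
      subst h3
      rw [hc] at h2
      exact absurd h2.1 (by simp)

theorem MN_erase_r {sd : Fin m → Bool} {rk : Fin m → ℕ}
    (inj : ∀ c c', rk c = rk c' → sd c = sd c' → c = c') {c : Fin m} (hc : sd c = false) (i : ℕ) :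
    (MN sd rk i (rk c + 1)).erase c = MN sd rk i (rk c) := by
  ext a
  rw [Finset.mem_erase, mem_MN, mem_MN]
  constructor
  · rintro ⟨h1, h2 | h2⟩
    · exact Or.inl h2
    · refine Or.inr ⟨h2.1, lt_of_le_of_ne (by omega) fun h3 => h1 ?_⟩
      exact inj a c h3 (h2.1.trans hc.symm)
  · rintro (h2 | h2)
    · refine ⟨fun h3 => ?_, Or.inl h2⟩
      subst h3
      rw [hc] at h2
      exact absurd h2.1 (by simp)
    · refine ⟨fun h3 => ?_, Or.inr ⟨h2.1, by omega⟩⟩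
      subst h3
      exact absurd h2.2 (lt_irrefl _)

/-- The last coordinate of one side below a rank. -/
theorem exists_pred (rk : Fin m → ℕ) (P : Fin m → Prop) (i : ℕ) :
    (∃ a, P a ∧ rk a < i ∧ ∀ b, P b → rk b < i → rk b ≤ rk a) ∨ ∀ a, P a → ¬ rk a < i := by
  classical
  by_cases h : ∃ a, P a ∧ rk a < i
  · obtain ⟨a₀, h1, h2⟩ := h
    obtain ⟨a, ha, hmax⟩ := Finset.exists_max_image (univ.filter fun a => P a ∧ rk a < i) rk
      ⟨a₀, by simp [h1, h2]⟩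
    rw [Finset.mem_filter] at ha
    exact Or.inl ⟨a, ha.2.1, ha.2.2, fun b hb hb' => hmax b (by simp [hb, hb'])⟩
  · push Not at h
    exact Or.inr fun a ha => not_lt.2 (h a ha)

theorem MN_pred_l (sd : Fin m → Bool) (rk : Fin m → ℕ) (i j : ℕ) :
    (∃ a, sd a = true ∧ rk a < i ∧ MN sd rk i j = MN sd rk (rk a + 1) j) ∨
      MN sd rk i j = MN sd rk 0 j := by
  rcases exists_pred rk (fun a => sd a = true) i with ⟨a, h1, h2, h3⟩ | h
  · refine Or.inl ⟨a, h1, h2, ?_⟩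
    ext b
    rw [mem_MN, mem_MN]
    constructor
    · rintro (h4 | h4)
      · exact Or.inl ⟨h4.1, by have := h3 b h4.1 h4.2; omega⟩
      · exact Or.inr h4
    · rintro (h4 | h4)
      · exact Or.inl ⟨h4.1, by omega⟩
      · exact Or.inr h4
  · refine Or.inr ?_
    ext b
    rw [mem_MN, mem_MN]
    constructor
    · rintro (h4 | h4)
      · exact absurd h4.2 (h b h4.1)
      · exact Or.inr h4
    · rintro (h4 | h4)
      · exact absurd h4.2 (Nat.not_lt_zero _)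
      · exact Or.inr h4

theorem MN_pred_r (sd : Fin m → Bool) (rk : Fin m → ℕ) (i j : ℕ) :
    (∃ a, sd a = false ∧ rk a < j ∧ MN sd rk i j = MN sd rk i (rk a + 1)) ∨
      MN sd rk i j = MN sd rk i 0 := by
  rcases exists_pred rk (fun a => sd a = false) j with ⟨a, h1, h2, h3⟩ | h
  · refine Or.inl ⟨a, h1, h2, ?_⟩
    ext b
    rw [mem_MN, mem_MN]
    constructor
    · rintro (h4 | h4)
      · exact Or.inl h4
      · exact Or.inr ⟨h4.1, by have := h3 b h4.1 h4.2; omega⟩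
    · rintro (h4 | h4)
      · exact Or.inl h4
      · exact Or.inr ⟨h4.1, by omega⟩
  · refine Or.inr ?_
    ext b
    rw [mem_MN, mem_MN]
    constructor
    · rintro (h4 | h4)
      · exact Or.inl h4
      · exact absurd h4.2 (h b h4.1)
    · rintro (h4 | h4)
      · exact Or.inl h4
      · exact absurd h4.2 (Nat.not_lt_zero _)

/-- **The state** of the induction: the claims hold for the sets in `𝓖`. -/
structure St (D : Dat m) (sd : Fin m → Bool) (rk : Fin m → ℕ) (h K : ℕ) (c₀ κ π e : ℝ)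
    (𝓖 : Finset (Fin m) → Prop) : Prop where
  h_le : h ≤ D.h₀
  hyp : Hyp D K (e * h) (e * h)
  nf : NFd D h c₀ κ π
  ful : ∀ c c', sd c = true → sd c' = false →
    FulM D (MN sd rk (rk c + 1) (rk c' + 1)) c c' (e * h)
  kn : ∀ M, 𝓖 M → ∃ F : D.Ω → Pl m, Claim D M h K (e * h) (e * h) F

/-- The state of a sub-law. -/
theorem st_pull (m K : ℕ) (c : ℝ) (hc : 0 < c) : ∃ C : ℝ, 1 ≤ C ∧ ∀ (D : Dat m)
    (sd : Fin m → Bool) (rk : Fin m → ℕ) (h h' K' : ℕ) (c₀ κ π e κ' π' e' : ℝ)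
    (𝓖 : Finset (Fin m) → Prop) (Ω' : Type) [Fintype Ω'] (q : Ω' → ℝ) (f : Ω' → D.Ω),
    St D sd rk h K c₀ κ π e 𝓖 → SubL D.p c q f → h' ≤ h → K ≤ K' → 0 ≤ e → 0 < π →
    κ * h ≤ κ' * h' → π / c ≤ π' → C * (e * h + 1) ≤ e' * h' →
    St (D.pull q f) sd rk h' K' c₀ κ' π' e' 𝓖 := by
  obtain ⟨C, hC, hsub⟩ := sub_stmt m K c hc
  refine ⟨C, hC, ?_⟩
  intro D sd rk h h' K' c₀ κ π e κ' π' e' 𝓖 Ω' _ q f hS hq hh hK he hπ hκ hπ' hCe
  have heh : 0 ≤ e * h := mul_nonneg he (Nat.cast_nonneg h)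
  obtain ⟨g1, g2, g3, g4⟩ := hsub D Ω' q f (e * h) (e * h) heh hS.hyp hq
  have hb : e * h ≤ e' * h' := by nlinarith
  refine ⟨hh.trans hS.h_le, g1.mono hK hb hCe, (g2 h c₀ κ π hπ hS.nf).mono hh hκ hπ', ?_, ?_⟩
  · intro c c' h1 h2
    exact (g3 _ c c' (hS.ful c c' h1 h2)).mono hCe
  · intro M hM
    obtain ⟨F, hF⟩ := hS.kn M hM
    exact ⟨fun ω => F (f ω), (g4 M h F hF).mono hq.isLaw.nonneg hh hK hb hCe⟩

/-- **The step of the state.** -/
theorem st_step (hS : StepS) (m K : ℕ) (c₀ : ℝ) (hc₀ : 0 < c₀) : ∃ K' : ℕ, K ≤ K' ∧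
    ∀ (ε κ₂ π₂ : ℝ), 0 < ε → 0 < κ₂ → 0 < π₂ → ∃ (h₁ : ℕ) (κ' κ π c₁ ι : ℝ), 0 < κ' ∧ κ' ≤ 1 ∧
    0 < κ ∧ 0 < π ∧ 0 < c₁ ∧ c₁ ≤ 1 ∧ 0 < ι ∧ ι ≤ ε ∧ ∀ (D : Dat m) (sd : Fin m → Bool)
    (rk : Fin m → ℕ) (h : ℕ) (𝓖 : Finset (Fin m) → Prop) (c c' : Fin m), sd c = true →
    sd c' = false → h₁ ≤ h → St D sd rk h K c₀ κ π ι 𝓖 →
    𝓖 ((MN sd rk (rk c + 1) (rk c' + 1)).erase c) →
    𝓖 ((MN sd rk (rk c + 1) (rk c' + 1)).erase c') →
    ∃ (Ω' : Type) (_ : Fintype Ω') (q : Ω' → ℝ) (f : Ω' → D.Ω) (h' : ℕ), SubL D.p c₁ q f ∧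
      κ' * h ≤ h' ∧ h' ≤ h ∧ St (D.pull q f) sd rk h' K' c₀ κ₂ π₂ ε
        (fun M => M = MN sd rk (rk c + 1) (rk c' + 1) ∨ 𝓖 M) := by
  obtain ⟨K₀, hS⟩ := hS m K c₀ hc₀
  refine ⟨max K K₀, le_max_left _ _, ?_⟩
  intro ε κ₂ π₂ hε hκ₂ hπ₂
  obtain ⟨h₁, κ', κ, π, c₁, ι, a1, a2, a3, a4, a5, a6, hS⟩ := hS ε hε
  obtain ⟨c₂, hc₂⟩ : ∃ c₂ : ℝ, c₂ = min 1 c₁ := ⟨_, rfl⟩
  have hc20 : 0 < c₂ := by rw [hc₂]; exact lt_min one_pos a5
  have hc21 : c₂ ≤ 1 := by rw [hc₂]; exact min_le_left _ _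
  have hc2c : c₂ ≤ c₁ := by rw [hc₂]; exact min_le_right _ _
  obtain ⟨C, hC, hpull⟩ := st_pull m K c₂ hc20
  have hC0 : 0 < C := by linarith
  have hεκ : 0 < ε * κ' := mul_pos hε a1
  obtain ⟨h₂, hh₂⟩ := exists_nat_ge (2 * C / (ε * κ'))
  obtain ⟨ι₂, hι₂⟩ : ∃ ι₂ : ℝ, ι₂ = min (min ι ε) (ε * κ' / (2 * C)) := ⟨_, rfl⟩
  have hι20 : 0 < ι₂ := by
    rw [hι₂]
    exact lt_min (lt_min a6 hε) (div_pos hεκ (by linarith))
  have hι2ι : ι₂ ≤ ι := by rw [hι₂]; exact (min_le_left _ _).trans (min_le_left _ _)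
  have hι2ε : ι₂ ≤ ε := by rw [hι₂]; exact (min_le_left _ _).trans (min_le_right _ _)
  have hι2C : ι₂ * (2 * C) ≤ ε * κ' := by
    have : ι₂ ≤ ε * κ' / (2 * C) := by rw [hι₂]; exact min_le_right _ _
    rwa [le_div_iff₀ (by linarith)] at this
  refine ⟨max h₁ h₂, κ', min κ (κ₂ * κ'), min π (π₂ * c₂), c₂, ι₂, a1, a2,
    lt_min a3 (mul_pos hκ₂ a1), lt_min a4 (mul_pos hπ₂ hc20), hc20, hc21, hι20, hι2ε, ?_⟩
  intro D sd rk h 𝓖 c c' hc hc' hh hSt hG hG'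
  have hh1 : h₁ ≤ h := (le_max_left _ _).trans hh
  have hh2 : h₂ ≤ h := (le_max_right _ _).trans hh
  have hh0 : (0 : ℝ) ≤ h := Nat.cast_nonneg h
  have hh2' : (h₂ : ℝ) ≤ h := by exact_mod_cast hh2
  have hιh : ι₂ * h ≤ ι * h := mul_le_mul_of_nonneg_right hι2ι hh0
  have hp := hSt.hyp.isLaw.nonneg
  have hne : c ≠ c' := fun h => by
    rw [h, hc'] at hc
    exact absurd hc (by simp)
  have hcM : c ∈ MN sd rk (rk c + 1) (rk c' + 1) := mem_MN.2 (Or.inl ⟨hc, Nat.lt_succ_self _⟩)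
  have hcM' : c' ∈ MN sd rk (rk c + 1) (rk c' + 1) :=
    mem_MN.2 (Or.inr ⟨hc', Nat.lt_succ_self _⟩)
  obtain ⟨F, hF⟩ := hSt.kn _ hG
  obtain ⟨F', hF'⟩ := hSt.kn _ hG'
  have hF := hF.mono hp le_rfl le_rfl hιh hιh
  have hF' := hF'.mono hp le_rfl le_rfl hιh hιh
  have hH := hSt.hyp.mono le_rfl hιh hιh
  have hN := hSt.nf.mono (κ' := κ) (π' := π) le_rfl
    (mul_le_mul_of_nonneg_right (min_le_left _ _) hh0) (min_le_left _ _)
  have hFul := (hSt.ful c c' hc hc').mono hιh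
  obtain ⟨Ω', iΩ, q, f, h', G, b1, b2, b3, b4⟩ : ∃ (Ω' : Type) (_ : Fintype Ω') (q : Ω' → ℝ)
      (f : Ω' → D.Ω) (h' : ℕ) (G : Ω' → Pl m), SubL D.p c₁ q f ∧ κ' * h ≤ h' ∧ h' ≤ h ∧
        Claim (D.pull q f) (MN sd rk (rk c + 1) (rk c' + 1)) h' K₀ (ε * h') (ε * h') G := by
    rcases lt_or_gt_of_ne hne with h3 | h3
    · exact hS D _ c c' h F F' hcM hcM' h3 hh1 hSt.h_le hH hN hFul hF hF'
    · exact hS D _ c' c h F' F hcM' hcM h3 hh1 hSt.h_le hH hN (hFul.symm hp) hF' hF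
  have hh' : ε * (κ' * h) ≤ ε * h' := mul_le_mul_of_nonneg_left b2 hε.le
  have hCe : C * (ι₂ * h + 1) ≤ ε * h' := by
    have e1 : ι₂ * (2 * C) * h ≤ ε * κ' * h := mul_le_mul_of_nonneg_right hι2C hh0
    have e2 : 2 * C ≤ ε * κ' * h := by
      rw [div_le_iff₀ hεκ] at hh₂
      have := mul_le_mul_of_nonneg_right hh2' hεκ.le
      linarith
    linarith
  have hst := hpull D sd rk h h' (max K K₀) c₀ (min κ (κ₂ * κ')) (min π (π₂ * c₂)) ι₂ κ₂ π₂ ε 𝓖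
    Ω' q f hSt (b1.mono hc2c) b3 (le_max_left _ _) hι20.le
    (lt_min a4 (mul_pos hπ₂ hc20))
    (by
      have e1 : min κ (κ₂ * κ') * h ≤ κ₂ * κ' * h :=
        mul_le_mul_of_nonneg_right (min_le_right _ _) hh0
      have e2 : κ₂ * (κ' * h) ≤ κ₂ * h' := mul_le_mul_of_nonneg_left b2 hκ₂.le
      linarith)
    (by
      rw [div_le_iff₀ hc20]
      exact min_le_right _ _) hCe
  refine ⟨Ω', iΩ, q, f, h', b1.mono hc2c, b2, b3, hst.h_le, hst.hyp, hst.nf, hst.ful, ?_⟩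
  rintro M (rfl | hM)
  · exact ⟨G, b4.mono b1.isLaw.nonneg le_rfl (le_max_right _ _) le_rfl le_rfl⟩
  · exact hst.kn M hM

/-- **The induction over the set of the pairs which are not done.** -/
theorem all_ind (hS : StepS) (m : ℕ) (c₀ : ℝ) (hc₀ : 0 < c₀) : ∀ N K : ℕ, ∃ K' : ℕ, K ≤ K' ∧
    ∀ ε : ℝ, 0 < ε → ∃ (h₁ : ℕ) (κ' κ π c₁ ι : ℝ), 0 < κ' ∧ κ' ≤ 1 ∧ 0 < κ ∧ 0 < π ∧ 0 < c₁ ∧
    c₁ ≤ 1 ∧ 0 < ι ∧ ι ≤ ε ∧ ∀ (D : Dat m) (sd : Fin m → Bool) (rk : Fin m → ℕ) (h : ℕ)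
    (𝓖 : Finset (Fin m) → Prop) (S : Finset (Fin m × Fin m)), S.card ≤ N →
    (∀ x ∈ S, sd x.1 = true ∧ sd x.2 = false) →
    (∀ c c', rk c = rk c' → sd c = sd c' → c = c') → h₁ ≤ h → St D sd rk h K c₀ κ π ι 𝓖 →
    (∀ i, 𝓖 (MN sd rk i 0)) → (∀ j, 𝓖 (MN sd rk 0 j)) →
    (∀ c c', sd c = true → sd c' = false → (c, c') ∉ S → 𝓖 (MN sd rk (rk c + 1) (rk c' + 1))) →
    ∃ (Ω' : Type) (_ : Fintype Ω') (q : Ω' → ℝ) (f : Ω' → D.Ω) (h' : ℕ), SubL D.p c₁ q f ∧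
      κ' * h ≤ h' ∧ h' ≤ h ∧ ∀ c c', sd c = true → sd c' = false → ∃ G : Ω' → Pl m,
        Claim (D.pull q f) (MN sd rk (rk c + 1) (rk c' + 1)) h' K' (ε * h') (ε * h') G := by
  -- nothing to do
  have stop : ∀ (K K' : ℕ), K ≤ K' → ∀ (ε κ' κ π c₁ ι : ℝ), 0 < ε → κ' ≤ 1 → 0 < c₁ → c₁ ≤ 1 →
      ι ≤ ε → ∀ (D : Dat m) (sd : Fin m → Bool) (rk : Fin m → ℕ) (h : ℕ)
      (𝓖 : Finset (Fin m) → Prop), St D sd rk h K c₀ κ π ι 𝓖 →
      (∀ c c', sd c = true → sd c' = false → 𝓖 (MN sd rk (rk c + 1) (rk c' + 1))) →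
      ∃ (Ω' : Type) (_ : Fintype Ω') (q : Ω' → ℝ) (f : Ω' → D.Ω) (h' : ℕ), SubL D.p c₁ q f ∧
        κ' * h ≤ h' ∧ h' ≤ h ∧ ∀ c c', sd c = true → sd c' = false → ∃ G : Ω' → Pl m,
          Claim (D.pull q f) (MN sd rk (rk c + 1) (rk c' + 1)) h' K' (ε * h') (ε * h') G := by
    intro K K' hK ε κ' κ π c₁ ι _ hκ' hc0 hc1 hι D sd rk h 𝓖 hSt hG
    have hh0 : (0 : ℝ) ≤ h := Nat.cast_nonneg h
    have hp := hSt.hyp.isLaw.nonneg
    refine ⟨D.Ω, D.fin, D.p, fun ω => ω, h, ⟨hSt.hyp.isLaw, fun ω => ?_⟩, ?_, le_rfl, ?_⟩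
    · have h1 : law D.p (fun ω => ω) ω = D.p ω := by
        classical
        unfold law
        rw [Finset.sum_ite_eq']
        simp
      rw [h1]
      have := mul_le_mul_of_nonneg_right hc1 (hp ω)
      linarith
    · have := mul_le_mul_of_nonneg_right hκ' hh0
      linarith
    · intro c c' h1 h2
      obtain ⟨F, hF⟩ := hSt.kn _ (hG c c' h1 h2)
      have hιh : ι * h ≤ ε * h := mul_le_mul_of_nonneg_right hι hh0
      exact ⟨F, hF.mono hp le_rfl hK hιh hιh⟩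
  intro N
  induction N with
  | zero =>
    intro K
    refine ⟨K, le_rfl, fun ε hε => ⟨0, 1, 1, 1, 1, ε, one_pos, le_rfl, one_pos, one_pos, one_pos,
      le_rfl, hε, le_rfl, ?_⟩⟩
    intro D sd rk h 𝓖 S hcard _ _ _ hSt _ _ h3
    have hS0 : S = ∅ := Finset.card_eq_zero.1 (Nat.le_zero.1 hcard)
    exact stop K K le_rfl ε 1 1 1 1 ε hε le_rfl one_pos le_rfl le_rfl D sd rk h 𝓖 hSt
      fun c c' h1 h2 => h3 c c' h1 h2 (by rw [hS0]; exact Finset.notMem_empty _)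
  | succ N ih =>
    intro K
    obtain ⟨K₁, hK₁, hstep⟩ := st_step hS m K c₀ hc₀
    obtain ⟨K', hK', hind⟩ := ih K₁
    refine ⟨K', hK₁.trans hK', fun ε hε => ?_⟩
    obtain ⟨h₁, κ', κ, π, c₁, ι, a1, a2, a3, a4, a5, a6, a7, a8, hind⟩ := hind ε hε
    obtain ⟨h₁', κ'', κ₁, π₁, c₂, ι₁, b1, b2, b3, b4, b5, b6, b7, b8, hstep⟩ :=
      hstep ι κ π a7 a3 a4
    obtain ⟨h₂, hh₂⟩ := exists_nat_ge ((h₁ : ℝ) / κ'')
    refine ⟨max h₁' h₂, κ'' * κ', κ₁, π₁, c₂ * c₁, ι₁, mul_pos b1 a1, ?_, b3, b4,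
      mul_pos b5 a5, ?_, b7, b8.trans a8, ?_⟩
    · exact mul_le_one₀ b2 a1.le a2
    · exact mul_le_one₀ b6 a5.le a6
    intro D sd rk h 𝓖 S hcard hSP inj hh hSt hl hr h3
    have hh0 : (0 : ℝ) ≤ h := Nat.cast_nonneg h
    rcases S.eq_empty_or_nonempty with hS0 | hS0
    · exact stop K K' (hK₁.trans hK') ε (κ'' * κ') κ₁ π₁ (c₂ * c₁) ι₁ hε
        (mul_le_one₀ b2 a1.le a2) (mul_pos b5 a5) (mul_le_one₀ b6 a5.le a6) (b8.trans a8) D sd rk
        h 𝓖 hSt fun c c' h1 h2 => h3 c c' h1 h2 (by rw [hS0]; exact Finset.notMem_empty _)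
    obtain ⟨x, hx, hmin⟩ := Finset.exists_min_image S (fun x => rk x.1 + rk x.2) hS0
    obtain ⟨c, c'⟩ := x
    obtain ⟨hc, hc'⟩ := hSP _ hx
    simp only at hc hc' hmin
    have hG : 𝓖 ((MN sd rk (rk c + 1) (rk c' + 1)).erase c) := by
      rw [MN_erase_l inj hc]
      rcases MN_pred_l sd rk (rk c) (rk c' + 1) with ⟨a, e1, e2, e3⟩ | e
      · rw [e3]
        refine h3 a c' e1 hc' fun h4 => ?_
        have := hmin _ h4
        simp only at this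
        omega
      · rw [e]
        exact hr _
    have hG' : 𝓖 ((MN sd rk (rk c + 1) (rk c' + 1)).erase c') := by
      rw [MN_erase_r inj hc']
      rcases MN_pred_r sd rk (rk c + 1) (rk c') with ⟨a, e1, e2, e3⟩ | e
      · rw [e3]
        refine h3 c a hc e1 fun h4 => ?_
        have := hmin _ h4
        simp only at this
        omega
      · rw [e]
        exact hl _
    obtain ⟨Ω', iΩ, q, f, h', d1, d2, d3, d4⟩ := hstep D sd rk h 𝓖 c c' hc hc'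
      ((le_max_left _ _).trans hh) hSt hG hG'
    have hh1 : h₁ ≤ h' := by
      have e1 : (h₂ : ℝ) ≤ h := by exact_mod_cast (le_max_right _ _).trans hh
      have e2 : (h₁ : ℝ) ≤ h' := by
        rw [div_le_iff₀ b1] at hh₂
        have := mul_le_mul_of_nonneg_right e1 b1.le
        linarith
      exact_mod_cast e2
    obtain ⟨Ω'', iΩ', q', f', h'', g1, g2, g3, g4⟩ := hind (D.pull q f) sd rk h'
      (fun M => M = MN sd rk (rk c + 1) (rk c' + 1) ∨ 𝓖 M) (S.erase (c, c'))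
      (by
        rw [Finset.card_erase_of_mem hx]
        omega)
      (fun y hy => hSP y (Finset.mem_of_mem_erase hy)) inj hh1 d4
      (fun i => Or.inr (hl i)) (fun j => Or.inr (hr j))
      (fun a a' e1 e2 e3 => by
        by_cases e4 : (a, a') = (c, c')
        · rw [Prod.mk.injEq] at e4
          exact Or.inl (by rw [e4.1, e4.2])
        · exact Or.inr (h3 a a' e1 e2 fun e5 => e3 (Finset.mem_erase.2 ⟨e4, e5⟩)))
    refine ⟨Ω'', iΩ', q', fun w => f (f' w), h'', d1.trans b5.le g1, ?_, g3.trans d3, ?_⟩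
    · have := mul_le_mul_of_nonneg_left d2 a1.le
      linarith
    · intro a a' e1 e2
      exact g4 a a' e1 e2

/-- **STEP V at a free height** from the step. -/
theorem all_h (hS : StepS) : AllH := by
  classical
  intro m K c₀ hc₀
  obtain ⟨Kr, Cr, hCr, hrestr⟩ := restr_sub m K
  obtain ⟨C₂, hC₂, hful⟩ := full_erase m K
  obtain ⟨K', hK', hind⟩ := all_ind hS m c₀ hc₀ (m * m) (max K Kr)
  refine ⟨K', fun ε hε => ?_⟩
  obtain ⟨h₁, κ', κ, π, c₁, ι₁, a1, a2, a3, a4, a5, a6, a7, a8, hind⟩ := hind ε hε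
  obtain ⟨A, hA⟩ : ∃ A : ℝ, A = Cr * (C₂ + 2) := ⟨_, rfl⟩
  have hA1 : 1 ≤ A := by rw [hA]; nlinarith
  have hA0 : 0 < A := by linarith
  obtain ⟨ι, hι⟩ : ∃ ι : ℝ, ι = min (min ι₁ (ι₁ / (2 * A))) (1 / (2 * A)) := ⟨_, rfl⟩
  have hι0 : 0 < ι := by
    rw [hι]
    exact lt_min (lt_min a7 (by positivity)) (by positivity)
  have hι1 : ι ≤ ι₁ := by rw [hι]; exact (min_le_left _ _).trans (min_le_left _ _)
  have hι2 : ι * (2 * A) ≤ ι₁ := by
    have : ι ≤ ι₁ / (2 * A) := by rw [hι]; exact (min_le_left _ _).trans (min_le_right _ _)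
    rwa [le_div_iff₀ (by linarith)] at this
  have hι3 : ι * (2 * A) ≤ 1 := by
    have : ι ≤ 1 / (2 * A) := by rw [hι]; exact min_le_right _ _
    rwa [le_div_iff₀ (by linarith)] at this
  obtain ⟨h₂, hh₂⟩ := exists_nat_ge (2 * A / ι₁ + 2 * A)
  refine ⟨max h₁ h₂, κ', κ, π, c₁, ι, a1, a2, a3, a4, a5, hι0, ?_⟩
  intro D sd rk h F₁ F₂ hh hle inj hH hN hFul hF₁ hF₂
  have hh1 : h₁ ≤ h := (le_max_left _ _).trans hh
  have hh2 : (2 * A / ι₁ + 2 * A) ≤ (h : ℝ) :=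
    hh₂.trans (by exact_mod_cast (le_max_right _ _).trans hh)
  have hh0 : (0 : ℝ) ≤ h := Nat.cast_nonneg _
  have hdiv : 0 ≤ 2 * A / ι₁ := by positivity
  have hA2 : 2 * A ≤ h := by linarith
  have hA3 : 2 * A ≤ ι₁ * h := by
    have : 2 * A / ι₁ ≤ h := by linarith
    rw [div_le_iff₀ a7] at this
    linarith
  have hp := hH.isLaw.nonneg
  have hb0 : 0 ≤ ι * h := mul_nonneg hι0.le hh0
  have hAι : A * (ι * h + 1) ≤ ι₁ * h := by
    have := mul_le_mul_of_nonneg_right hι2 hh0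
    linarith
  have hAh : A * (ι * h + 1) ≤ h := by
    have := mul_le_mul_of_nonneg_right hι3 hh0
    linarith
  have hιh : ι * h ≤ ι₁ * h := mul_le_mul_of_nonneg_right hι1 hh0
  -- the identical sub-law
  have hid : SubL D.p c₁ D.p (fun ω : D.Ω => ω) := by
    refine ⟨hH.isLaw, fun ω => ?_⟩
    have h1 : law D.p (fun ω => ω) ω = D.p ω := by
      unfold law
      rw [Finset.sum_ite_eq']
      simp
    rw [h1]
    have := mul_le_mul_of_nonneg_right a6 (hp ω)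
    linarith
  have hκh : κ' * h ≤ h := by
    have := mul_le_mul_of_nonneg_right a2 hh0
    linarith
  have hιε : ι * h ≤ ε * h := mul_le_mul_of_nonneg_right (hι1.trans a8) hh0
  by_cases ht : ∃ c, sd c = true
  swap
  · push Not at ht
    have e : (univ.filter fun a => sd a = false) = (univ : Finset (Fin m)) := by
      ext a
      simp [ht a]
    rw [e] at hF₂
    exact ⟨D.Ω, D.fin, D.p, fun ω => ω, h, F₂, hid, hκh, le_rfl,
      hF₂.mono hp le_rfl ((le_max_left _ _).trans hK') hιε hιε⟩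
  by_cases hf : ∃ c, sd c = false
  swap
  · push Not at hf
    have e : (univ.filter fun a => sd a = true) = (univ : Finset (Fin m)) := by
      ext a
      simp [hf a]
    rw [e] at hF₁
    exact ⟨D.Ω, D.fin, D.p, fun ω => ω, h, F₁, hid, hκh, le_rfl,
      hF₁.mono hp le_rfl ((le_max_left _ _).trans hK') hιε hιε⟩
  have hFul' : ∀ c c', sd c = true → sd c' = false →
      FulM D (MN sd rk (rk c + 1) (rk c' + 1)) c c' (ι * h) := by
    intro c c' h1 h2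
    have h3 := hFul (rk c) (rk c') c c' h1 h2 rfl rfl
    have e : (univ.filter fun a => (sd a = true ∧ rk a ≤ rk c) ∨ (sd a = false ∧ rk a ≤ rk c')) =
        MN sd rk (rk c + 1) (rk c' + 1) := by
      ext a
      rw [mem_MN]
      simp only [Finset.mem_filter, Finset.mem_univ, true_and, Nat.lt_succ_iff]
    rwa [e] at h3
  obtain ⟨c₁', hc₁, hmin₁⟩ : ∃ c, sd c = true ∧ ∀ b, sd b = true → rk c ≤ rk b := by
    obtain ⟨c, hc⟩ := ht
    obtain ⟨a, ha, hmin⟩ := Finset.exists_min_image (univ.filter fun a => sd a = true) rk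
      ⟨c, by simp [hc]⟩
    rw [Finset.mem_filter] at ha
    exact ⟨a, ha.2, fun b hb => hmin b (by simp [hb])⟩
  obtain ⟨c₂', hc₂, hmin₂⟩ : ∃ c, sd c = false ∧ ∀ b, sd b = false → rk c ≤ rk b := by
    obtain ⟨c, hc⟩ := hf
    obtain ⟨a, ha, hmin⟩ := Finset.exists_min_image (univ.filter fun a => sd a = false) rk
      ⟨c, by simp [hc]⟩
    rw [Finset.mem_filter] at ha
    exact ⟨a, ha.2, fun b hb => hmin b (by simp [hb])⟩
  -- the claims for the sets of one side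
  have hθ0 : 0 ≤ ι * h + C₂ * (ι * h + 1) := by
    have : 0 ≤ C₂ * (ι * h + 1) := mul_nonneg (by linarith) (by linarith)
    linarith
  have hX : (h : ℝ) + Cr * (ι * h + 1) ≤ D.X := by
    have e1 : Cr * (ι * h + 1) ≤ A * (ι * h + 1) := by
      refine mul_le_mul_of_nonneg_right ?_ (by linarith)
      rw [hA]
      nlinarith
    have e2 : (2 * h : ℝ) ≤ D.X := by
      exact_mod_cast (Nat.mul_le_mul_left 2 hle).trans hH.h_le
    linarith
  have hb' : Cr * (ι * h + 1) ≤ ι₁ * h := by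
    refine le_trans (mul_le_mul_of_nonneg_right ?_ (by linarith)) hAι
    rw [hA]
    nlinarith
  have hθ' : Cr * (ι * h + C₂ * (ι * h + 1) + ι * h + 1) ≤ ι₁ * h := by
    refine le_trans ?_ hAι
    rw [hA]
    have e1 : ι * h + C₂ * (ι * h + 1) + ι * h + 1 ≤ (C₂ + 2) * (ι * h + 1) := by
      nlinarith
    have := mul_le_mul_of_nonneg_left e1 (by linarith : (0 : ℝ) ≤ Cr)
    linarith
  have hHθ : Hyp D K (ι * h) (ι * h + C₂ * (ι * h + 1)) := by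
    refine hH.mono le_rfl le_rfl ?_
    have : 0 ≤ C₂ * (ι * h + 1) := mul_nonneg (by linarith) (by linarith)
    linarith
  have hone : ∀ (M M' : Finset (Fin m)) (F : D.Ω → Pl m), M' ⊆ M →
      Claim D M h K (ι * h) (ι * h) F →
      (M'.card * (D.X * Real.log 2) - (ι * h + C₂ * (ι * h + 1)) ≤
        CH D.p (D.on M') (fun ω => (D.out M' ω, D.z ω))) →
      ∃ G : D.Ω → Pl m, Claim D M' h (max K Kr) (ι₁ * h) (ι₁ * h) G := by
    intro M M' F hsub hF hfull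
    have hF' := hF.mono (θ' := ι * h + C₂ * (ι * h + 1)) hp le_rfl le_rfl le_rfl (by
      have : 0 ≤ C₂ * (ι * h + 1) := mul_nonneg (by linarith) (by linarith)
      linarith)
    obtain ⟨G, hG⟩ := hrestr D M M' h h (ι * h) (ι * h + C₂ * (ι * h + 1)) F hsub
      hb0 hθ0 le_rfl hX hHθ hfull hF'
    exact ⟨G, hG.mono hp le_rfl (le_max_right _ _) hb' hθ'⟩
  have hempty : ∀ M' : Finset (Fin m), M' = ∅ →
      (M'.card * (D.X * Real.log 2) - (ι * h + C₂ * (ι * h + 1)) ≤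
        CH D.p (D.on M') (fun ω => (D.out M' ω, D.z ω))) := by
    intro M' hM'
    have := CH_nonneg hp (D.on M') (fun ω => (D.out M' ω, D.z ω))
    rw [hM'] at this ⊢
    simp only [Finset.card_empty, Nat.cast_zero, zero_mul, zero_sub]
    linarith
  have hleft : ∀ i, ∃ G : D.Ω → Pl m,
      Claim D (MN sd rk i 0) h (max K Kr) (ι₁ * h) (ι₁ * h) G := by
    intro i
    refine hone (univ.filter fun a => sd a = true) _ F₁ ?_ hF₁ ?_
    · intro a ha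
      rw [mem_MN] at ha
      rcases ha with h1 | h1
      · simp [h1.1]
      · exact absurd h1.2 (Nat.not_lt_zero _)
    · rcases MN_pred_l sd rk i 0 with ⟨a, e1, e2, e3⟩ | e
      · have h4 := hful D (ι * h) (ι * h) (ι * h) hb0 hH
          (MN sd rk (rk a + 1) (rk c₂' + 1)) c₂' a
          (mem_MN.2 (Or.inr ⟨hc₂, Nat.lt_succ_self _⟩)) ((hFul' a c₂' e1 hc₂).symm hp)
        have e4 : (MN sd rk (rk a + 1) (rk c₂' + 1)).erase c₂' = MN sd rk (rk a + 1) 0 := by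
          rw [MN_erase_r inj hc₂]
          ext b
          rw [mem_MN, mem_MN]
          constructor
          · rintro (h5 | h5)
            · exact Or.inl h5
            · exact absurd h5.2 (not_lt.2 (hmin₂ b h5.1))
          · rintro (h5 | h5)
            · exact Or.inl h5
            · exact absurd h5.2 (Nat.not_lt_zero _)
        rw [e4, ← e3] at h4
        exact h4
      · refine hempty _ ?_
        rw [e]
        ext b
        rw [mem_MN]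
        simp
  have hright : ∀ j, ∃ G : D.Ω → Pl m,
      Claim D (MN sd rk 0 j) h (max K Kr) (ι₁ * h) (ι₁ * h) G := by
    intro j
    refine hone (univ.filter fun a => sd a = false) _ F₂ ?_ hF₂ ?_
    · intro a ha
      rw [mem_MN] at ha
      rcases ha with h1 | h1
      · exact absurd h1.2 (Nat.not_lt_zero _)
      · simp [h1.1]
    · rcases MN_pred_r sd rk 0 j with ⟨a, e1, e2, e3⟩ | e
      · have h4 := hful D (ι * h) (ι * h) (ι * h) hb0 hH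
          (MN sd rk (rk c₁' + 1) (rk a + 1)) c₁' a
          (mem_MN.2 (Or.inl ⟨hc₁, Nat.lt_succ_self _⟩)) (hFul' c₁' a hc₁ e1)
        have e4 : (MN sd rk (rk c₁' + 1) (rk a + 1)).erase c₁' = MN sd rk 0 (rk a + 1) := by
          rw [MN_erase_l inj hc₁]
          ext b
          rw [mem_MN, mem_MN]
          constructor
          · rintro (h5 | h5)
            · exact absurd h5.2 (not_lt.2 (hmin₁ b h5.1))
            · exact Or.inr h5
          · rintro (h5 | h5)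
            · exact absurd h5.2 (Nat.not_lt_zero _)
            · exact Or.inr h5
        rw [e4, ← e3] at h4
        exact h4
      · refine hempty _ ?_
        rw [e]
        ext b
        rw [mem_MN]
        simp
  -- the induction
  have hst : St D sd rk h (max K Kr) c₀ κ π ι₁
      (fun M => (∃ i, M = MN sd rk i 0) ∨ ∃ j, M = MN sd rk 0 j) := by
    refine ⟨hle, hH.mono (le_max_left _ _) hιh hιh, hN, fun c c' h1 h2 =>
      (hFul' c c' h1 h2).mono hιh, ?_⟩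
    rintro M (⟨i, rfl⟩ | ⟨j, rfl⟩)
    · exact hleft i
    · exact hright j
  obtain ⟨Ω', iΩ, q, f, h', g1, g2, g3, g4⟩ := hind D sd rk h _
    (univ.filter fun x : Fin m × Fin m => sd x.1 = true ∧ sd x.2 = false)
    ((Finset.card_le_univ _).trans (by simp)) (fun x hx => by simpa using hx) inj hh1 hst
    (fun i => Or.inl ⟨i, rfl⟩) (fun j => Or.inr ⟨j, rfl⟩)
    (fun c c' h1 h2 h3 => absurd (by simp [h1, h2]) h3)
  obtain ⟨c₃, hc₃, hmax₃⟩ : ∃ c, sd c = true ∧ ∀ b, sd b = true → rk b ≤ rk c := by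
    obtain ⟨a, ha, hmax⟩ := Finset.exists_max_image (univ.filter fun a => sd a = true) rk
      ⟨c₁', by simp [hc₁]⟩
    rw [Finset.mem_filter] at ha
    exact ⟨a, ha.2, fun b hb => hmax b (by simp [hb])⟩
  obtain ⟨c₄, hc₄, hmax₄⟩ : ∃ c, sd c = false ∧ ∀ b, sd b = false → rk b ≤ rk c := by
    obtain ⟨a, ha, hmax⟩ := Finset.exists_max_image (univ.filter fun a => sd a = false) rk
      ⟨c₂', by simp [hc₂]⟩
    rw [Finset.mem_filter] at ha
    exact ⟨a, ha.2, fun b hb => hmax b (by simp [hb])⟩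
  obtain ⟨G, hG⟩ := g4 c₃ c₄ hc₃ hc₄
  have e : MN sd rk (rk c₃ + 1) (rk c₄ + 1) = univ := by
    ext b
    rw [mem_MN]
    simp only [Finset.mem_univ, iff_true]
    cases hb : sd b with
    | true => exact Or.inl ⟨rfl, Nat.lt_succ_of_le (hmax₃ b hb)⟩
    | false => exact Or.inr ⟨rfl, Nat.lt_succ_of_le (hmax₄ b hb)⟩
  rw [e] at hG
  exact ⟨Ω', iΩ, q, f, h', G, g1, g2, g3, hG⟩

/-- **STEP V** from the step. -/
theorem all_of (hS : StepS) : AllS := by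
  intro m K c₀ hc₀
  obtain ⟨K', hall⟩ := all_h hS m K c₀ hc₀
  refine ⟨K', fun ε hε => ?_⟩
  obtain ⟨h₁, κ', κ, π, c₁, ι, a1, a2, a3, a4, a5, a6, hall⟩ := hall ε hε
  exact ⟨h₁, κ', κ, π, c₁, ι, a1, a2, a3, a4, a5, a6, fun D sd rk F₁ F₂ hh inj hH hN hFul hF₁ hF₂ =>
    hall D sd rk D.h₀ F₁ F₂ hh le_rfl inj hH hN hFul hF₁ hF₂⟩

end Pool.TIE
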