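import Pool.Agent.H1.TIE.Sub
import Pool.Agent.H65.TIE.Restr
import Pool.Agent.H65.TIE.Vdet

/-!
# STEP V: monotonicity, fullness of the inner sets
-/

set_option autoImplicit false

namespace Pool.TIE

open Finset MvPolynomial
open Pool.Agent.H49.Ent Pool.Agent.H32.Dense Pool.STK Pool.BFL

variable {m : ℕ}

/-! ### Monotonicity -/

theorem Hyp.mono {D : Dat m} {K K' : ℕ} {b b' θ θ' : ℝ} (H : Hyp D K b θ) (hK : K ≤ K')
    (hb : b ≤ b') (hθ : θ ≤ θ') : Hyp D K' b' θ' := by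
  have h2 : (2 : ℝ) ^ b ≤ 2 ^ b' := Real.rpow_le_rpow_of_exponent_le one_le_two hb
  refine ⟨H.isLaw, H.V_lt, H.h_le, fun ω c => (H.s_deg ω c).trans hK,
    fun ω c α => (H.s_cf ω c α).trans h2, H.s_vars, fun ω => (H.nr_le ω).trans h2, ?_⟩
  have := H.nu_s
  linarith

theorem NFd.mono {D : Dat m} {h h' : ℕ} {c₀ κ κ' π π' : ℝ} (H : NFd D h c₀ κ π) (hh : h' ≤ h)
    (hκ : κ * h ≤ κ' * h') (hπ : π ≤ π') : NFd D h' c₀ κ' π' := by
  intro Ω' _ q f hS r r' h1 h2 h3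
  exact H Ω' q f (hS.mono hπ) r r' h1 (h2.trans hh) (hκ.trans h3)

theorem FulM.mono {D : Dat m} {M : Finset (Fin m)} {c c' : Fin m} {θ θ' : ℝ}
    (H : FulM D M c c' θ) (hθ : θ ≤ θ') : FulM D M c c' θ' := by
  unfold FulM at H ⊢
  linarith

theorem FulM.symm {D : Dat m} (hp : ∀ ω, 0 ≤ D.p ω) {M : Finset (Fin m)} {c c' : Fin m} {θ : ℝ}
    (H : FulM D M c c' θ) : FulM D M c' c θ := by
  unfold FulM at H ⊢
  refine H.trans (CH_mono_cond hp fun ω ω' _ _ e => ?_)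
  simp only [Prod.mk.injEq] at e ⊢
  exact ⟨⟨e.1.2, e.1.1⟩, e.2⟩

theorem Claim.mono {D : Dat m} (hp : ∀ ω, 0 ≤ D.p ω) {M : Finset (Fin m)} {h h' K K' : ℕ}
    {b b' θ θ' : ℝ} {F : D.Ω → Pl m} (H : Claim D M h K b θ F) (hh : h' ≤ h) (hK : K ≤ K')
    (hb : b ≤ b') (hθ : θ ≤ θ') : Claim D M h' K' b' θ' F := by
  have h2 : (2 : ℝ) ^ b ≤ 2 ^ b' := Real.rpow_le_rpow_of_exponent_le one_le_two hb
  refine ⟨H.vars, fun ω => (H.deg ω).trans hK, fun ω α => (H.cf ω α).trans h2, H.few.trans hθ, ?_⟩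
  have h3 := H.full
  have h4 : CH D.p (D.on M) (fun ω => (D.hF h F ω, (F ω, (D.out M ω, D.z ω)))) ≤
      CH D.p (D.on M) (fun ω => (D.hF h' F ω, (F ω, (D.out M ω, D.z ω)))) := by
    refine CH_mono_cond hp fun ω ω' _ _ e => ?_
    simp only [Prod.mk.injEq] at e ⊢
    exact ⟨dg_of_dg hh e.1, e.2⟩
  linarith

/-! ### Fullness of a set without one coordinate -/

/-- The number of the values of the height of a sheet. -/
theorem ht_le (m K : ℕ) : ∃ C : ℝ, 1 ≤ C ∧ ∀ (D : Dat m) (b θ : ℝ), 0 ≤ b → Hyp D K b θ →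
    ∀ (c : Fin m) {T : Type} (Y : D.Ω → T), CH D.p (D.ht c) Y ≤ D.X * Real.log 2 + C * (b + 1) := by
  obtain ⟨R, hR⟩ : ∃ R : ℝ, R = 1 + ((K : ℝ) + 1) ^ m := ⟨_, rfl⟩
  have hR0 : 1 ≤ R := by
    rw [hR]
    have : (0 : ℝ) ≤ ((K : ℝ) + 1) ^ m := by positivity
    linarith
  have hlR : 0 ≤ Real.log R := Real.log_nonneg hR0
  have hl5 : 0 ≤ Real.log 5 := Real.log_nonneg (by norm_num)
  refine ⟨Real.log 5 + Real.log R + 1, by linarith, ?_⟩
  intro D b θ hb hH c T Y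
  obtain ⟨A, hA⟩ : ∃ A : ℝ, A = (2 : ℝ) ^ D.X * (R * (2 : ℝ) ^ b) := ⟨_, rfl⟩
  have h2b : (1 : ℝ) ≤ (2 : ℝ) ^ b := Real.one_le_rpow one_le_two hb
  have h2X : (1 : ℝ) ≤ (2 : ℝ) ^ D.X := one_le_pow₀ one_le_two
  have hA1 : 1 ≤ A := by
    rw [hA]
    have := one_le_mul_of_one_le_of_one_le hR0 h2b
    exact one_le_mul_of_one_le_of_one_le h2X this
  obtain ⟨N, hN⟩ : ∃ N : ℕ, N = ⌈A⌉₊ := ⟨_, rfl⟩
  have hN1 : A ≤ N := by rw [hN]; exact Nat.le_ceil _
  have hN2 : (N : ℝ) ≤ 2 * A := by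
    rw [hN]
    have := (Nat.ceil_lt_add_one (by linarith : (0 : ℝ) ≤ A)).le
    linarith
  have hbd : ∀ ω, |(2 : ℝ) ^ D.X * (D.v ω c - eval (D.v ω) (D.s ω c))| ≤ A := by
    intro ω
    have h1 := D.v_le hH.V_lt ω
    have h3 : |eval (D.v ω) (D.s ω c)| ≤ ((K : ℝ) + 1) ^ m * (2 : ℝ) ^ b :=
      (eval_ml2 h1).trans (ml_le_of_cb (hH.s_deg ω c) (by positivity) (hH.s_cf ω c))
    rw [abs_mul, abs_of_pos (by positivity), hA, hR]
    refine mul_le_mul_of_nonneg_left ?_ (by positivity)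
    refine (abs_sub _ _).trans ?_
    have := h1 c
    nlinarith
  have h1 := CH_le_card hH.isLaw.nonneg hH.isLaw.sum_one (D.ht c) Y
    (fun _ => Finset.Icc (-(N : ℤ)) N) (fun ω _ => by
      have h3 := abs_le.1 (hbd ω)
      unfold Dat.ht dg
      rw [Finset.mem_Icc]
      constructor
      · rw [Int.le_floor]
        push_cast
        linarith
      · have h4 : (⌊(2 : ℝ) ^ D.X * (D.v ω c - eval (D.v ω) (D.s ω c))⌋ : ℝ) ≤ N :=
          (Int.floor_le _).trans (by linarith)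
        exact_mod_cast h4)
  refine h1.trans ?_
  rw [Ex_const hH.isLaw.sum_one, Int.card_Icc]
  have h5 : ((N : ℤ) + 1 - -(N : ℤ)).toNat = 2 * N + 1 := by omega
  rw [h5]
  have h6 : ((2 * N + 1 : ℕ) : ℝ) ≤ 5 * A := by
    push_cast
    linarith
  have h7 : Real.log ((2 * N + 1 : ℕ) : ℝ) ≤ Real.log (5 * A) :=
    Real.log_le_log (by positivity) h6
  refine h7.trans ?_
  have hlog2 : Real.log 2 ≤ 1 := by linarith [Real.log_two_lt_d9]
  have hlog2' : 0 ≤ Real.log 2 := Real.log_nonneg one_le_two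
  rw [hA, Real.log_mul (by norm_num) (by positivity), Real.log_mul (by positivity) (by positivity),
    Real.log_mul (by positivity) (by positivity), Real.log_pow, Real.log_rpow two_pos]
  nlinarith [mul_nonneg hl5 hb, mul_nonneg hlR hb, mul_le_mul_of_nonneg_left hlog2 hb]

/-- **The inner set is full.** -/
theorem full_erase (m K : ℕ) : ∃ C : ℝ, 1 ≤ C ∧ ∀ (D : Dat m) (b θ θ₁ : ℝ), 0 ≤ b →
    Hyp D K b θ₁ → ∀ (M : Finset (Fin m)) (c c' : Fin m), c ∈ M → FulM D M c c' θ →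
    (M.erase c).card * (D.X * Real.log 2) - (θ + C * (b + 1)) ≤
      CH D.p (D.on (M.erase c)) (fun ω => (D.out (M.erase c) ω, D.z ω)) := by
  obtain ⟨C, hC, hht⟩ := ht_le m K
  refine ⟨C, hC, ?_⟩
  intro D b θ θ₁ hb hH M c c' hc hF
  have hp := hH.isLaw.nonneg
  have h1 := hht D b θ₁ hb hH c (fun ω => (D.s ω c, (D.out M ω, D.z ω)))
  have h2 : CH D.p (D.on M) (fun ω => ((D.s ω c, D.s ω c'), (D.out M ω, D.z ω))) ≤
      CH D.p (D.on M) (fun ω => (D.s ω c, (D.out M ω, D.z ω))) := by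
    refine CH_mono_cond hp fun ω ω' _ _ e => ?_
    simp only [Prod.mk.injEq] at e ⊢
    exact ⟨e.1.1, e.2⟩
  have h3 := CH_le_add hp (D.on M) (D.ht c) (fun ω => (D.s ω c, (D.out M ω, D.z ω)))
  -- the sheet of `c` and the sheets outside are the sheets outside the inner set
  have h4 : CH D.p (D.on M) (fun ω => (D.ht c ω, (D.s ω c, (D.out M ω, D.z ω)))) ≤
      CH D.p (D.on M) (fun ω => (D.out (M.erase c) ω, D.z ω)) := by
    refine CH_mono_cond hp fun ω ω' _ _ e => ?_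
    simp only [Prod.mk.injEq] at e ⊢
    refine ⟨?_, e.2.2.2⟩
    funext a
    unfold Dat.out
    by_cases ha : a = c
    · subst ha
      rw [if_neg (Finset.notMem_erase a M), if_neg (Finset.notMem_erase a M), e.1, e.2.1]
    · by_cases haM : a ∈ M
      · rw [if_pos (Finset.mem_erase.2 ⟨ha, haM⟩), if_pos (Finset.mem_erase.2 ⟨ha, haM⟩)]
      · have h5 := D.out_some e.2.2.1 haM
        have h6 : a ∉ M.erase c := fun h => haM (Finset.mem_of_mem_erase h)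
        rw [if_neg h6, if_neg h6, h5.1, h5.2]
  have h5 : CH D.p (D.on M) (fun ω => (D.out (M.erase c) ω, D.z ω)) ≤
      CH D.p (D.on (M.erase c)) (fun ω => (D.out (M.erase c) ω, D.z ω)) := by
    refine CH_mono_left hp fun ω ω' _ _ e => ?_
    simp only [Prod.mk.injEq] at e
    have h6 := D.V_det_out hH.s_vars e.2.1 e.1
    unfold Dat.on
    rw [h6]
  unfold FulM at hF
  have h6 : ((M.erase c).card : ℝ) = M.card - 1 := by
    rw [Finset.card_erase_of_mem hc, Nat.cast_sub (Finset.card_pos.2 ⟨c, hc⟩), Nat.cast_one]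
  rw [h6]
  have h7 : ((M.card : ℝ) - 1) * (D.X * Real.log 2) =
      M.card * (D.X * Real.log 2) - D.X * Real.log 2 := by ring
  rw [h7]
  linarith

end Pool.TIE
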