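import Pool.Agent.H88.TIE.Stm
import Pool.Agent.H6.OCM.NFV
import Pool.Agent.H72.KJ.Ent5

/-!
# STEP V: sub-laws and densities

`mix`: conditional entropies of a law and of a part of it. `sub_stmt`: the hypotheses and the claims
pass to sub-laws.
-/

set_option autoImplicit false

namespace Pool.TIE

open Finset MvPolynomial
open Pool.Agent.H49.Ent Pool.Agent.H32.Dense Pool.STK Pool.BFL

section mix

variable {Ω : Type} [Fintype Ω]

/-- The law `p` with a mark for the part `c * q`. -/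
noncomputable def mx (p q : Ω → ℝ) (c : ℝ) (w : Ω × Bool) : ℝ :=
  if w.2 = true then c * q w.1 else p w.1 - c * q w.1

theorem mx_nonneg {p q : Ω → ℝ} (hq : ∀ ω, 0 ≤ q ω) {c : ℝ} (hc : 0 ≤ c)
    (h : ∀ ω, c * q ω ≤ p ω) (w : Ω × Bool) : 0 ≤ mx p q c w := by
  unfold mx
  split_ifs
  · exact mul_nonneg hc (hq _)
  · linarith [h w.1]

theorem sum_fst (g : Ω × Bool → ℝ) (ω : Ω) : law g Prod.fst ω = g (ω, true) + g (ω, false) := by
  classical
  unfold law
  rw [Fintype.sum_prod_type, Finset.sum_eq_single ω]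
  · simp
  · intro b _ hb
    simp [hb]
  · intro h
    exact absurd (mem_univ ω) h

theorem mx_fst (p q : Ω → ℝ) (c : ℝ) (ω : Ω) : law (mx p q c) Prod.fst ω = p ω := by
  rw [sum_fst]
  simp [mx]

theorem mx_true {p q : Ω → ℝ} (hq : IsLaw q) (c : ℝ) :
    law (mx p q c) (fun w => w.2) true = c := by
  classical
  unfold law
  rw [Fintype.sum_prod_type]
  refine (Finset.sum_congr rfl fun ω _ => ?_ : _ = ∑ ω, c * q ω).trans (by
    rw [← Finset.mul_sum, hq.sum_one, mul_one])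
  simp [mx]

theorem mx_false {p q : Ω → ℝ} (hp : IsLaw p) (hq : IsLaw q) (c : ℝ) :
    law (mx p q c) (fun w => w.2) false = 1 - c := by
  classical
  unfold law
  rw [Fintype.sum_prod_type]
  refine (Finset.sum_congr rfl fun ω _ => ?_ : _ = ∑ ω, (p ω - c * q ω)).trans (by
    rw [Finset.sum_sub_distrib, ← Finset.mul_sum, hq.sum_one, hp.sum_one, mul_one])
  simp [mx]

/-- **Conditional entropies of a law and of a part of it**. -/
theorem mix {p q : Ω → ℝ} (hp : IsLaw p) (hq : IsLaw q) {c : ℝ} (hc : 0 < c)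
    (h : ∀ ω, c * q ω ≤ p ω) : c ≤ 1 ∧ ∃ ρ : Ω × Bool → ℝ, (∀ w, 0 ≤ ρ w) ∧ (c < 1 → IsLaw ρ) ∧
      ∀ {S T : Type} (X : Ω → S) (Y : Ω → T),
      c * CH q X Y + (1 - c) * CH ρ (fun w => X w.1) (fun w => Y w.1) ≤ CH p X Y ∧
      CH p X Y ≤ c * CH q X Y + (1 - c) * CH ρ (fun w => X w.1) (fun w => Y w.1) +
        Real.log 2 := by
  classical
  have hc1 : c ≤ 1 := by
    have h1 := Finset.sum_le_sum (s := Finset.univ) fun ω (_ : ω ∈ Finset.univ) => h ω
    rw [← Finset.mul_sum, hq.sum_one, hp.sum_one, mul_one] at h1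
    exact h1
  have hν0 := mx_nonneg (p := p) hq.nonneg hc.le h
  have hνs : ∑ w, mx p q c w = 1 := by
    rw [← hp.sum_one, Fintype.sum_prod_type]
    refine Finset.sum_congr rfl fun ω _ => ?_
    simp [mx]
  have hν : IsLaw (mx p q c) := ⟨hν0, hνs⟩
  refine ⟨hc1, Pool.Agent.H49.Ent.cond (mx p q c) (fun w => w.2) false,
    fun w => cond_nonneg hν0 _ _ w, fun hc2 => ?_, ?_⟩
  · have h1 : law (mx p q c) (fun w => w.2) false ≠ 0 := by
      rw [mx_false hp hq]
      linarith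
    exact ⟨fun w => cond_nonneg hν0 _ _ w, by
      rw [sum_cond]
      exact h1⟩
  intro S T X Y
  have e0 : CH (mx p q c) (fun w => X w.1) (fun w => Y w.1) = CH p X Y :=
    Pool.OC.RS.CH_push (mx_fst p q c) X Y
  have e1 : CH (mx p q c) (fun w => X w.1) (fun w => (w.2, Y w.1)) =
      c * CH q X Y + (1 - c) * CH (Pool.Agent.H49.Ent.cond (mx p q c) (fun w => w.2) false)
        (fun w => X w.1) (fun w => Y w.1) := by
    rw [Pool.OCM.CH_avg hν0 (fun w => X w.1) (fun w => Y w.1) (fun w : Ω × Bool => w.2)]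
    rw [Finset.sum_subset (Finset.subset_univ _)]
    · rw [Fintype.sum_bool, mx_true hq, mx_false hp hq]
      congr 2
      refine Pool.OC.RS.CH_push (w := Prod.fst) (fun ω => ?_) X Y
      rw [sum_fst]
      unfold Pool.Agent.H49.Ent.cond
      rw [mx_true hq]
      simp only [if_true, Bool.false_eq_true, if_false, add_zero]
      unfold mx
      simp only [if_true]
      field_simp
    · intro b _ hb
      have h1 : law (mx p q c) (fun w : Ω × Bool => w.2) b = 0 := by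
        unfold law
        refine Finset.sum_eq_zero fun w _ => ?_
        rw [if_neg]
        intro h2
        exact hb (Finset.mem_image.2 ⟨w, mem_univ _, h2⟩)
      rw [h1, zero_mul]
  have e2 : CH (mx p q c) (fun w => X w.1) (fun w => (w.2, Y w.1)) ≤
      CH (mx p q c) (fun w => X w.1) (fun w => Y w.1) :=
    CH_mono_cond hν0 fun w w' _ _ hh => (Prod.ext_iff.mp hh).2
  have e3 := CH_le_add hν0 (fun w : Ω × Bool => X w.1) (fun w => w.2) (fun w => Y w.1)
  have e4 := Pool.KJ.CH_dec_le hν (fun w : Ω × Bool => w.2) (fun w => Y w.1)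
  constructor
  · linarith
  · linarith

end mix

variable {m : ℕ}

namespace Dat

variable (D : Dat m) {Ω' : Type} [Fintype Ω'] (q : Ω' → ℝ) (f : Ω' → D.Ω)

theorem pull_on (M : Finset (Fin m)) (ω : Ω') : (D.pull q f).on M ω = D.on M (f ω) := rfl

theorem pull_out (M : Finset (Fin m)) (ω : Ω') : (D.pull q f).out M ω = D.out M (f ω) := rfl

theorem pull_v (ω : Ω') : (D.pull q f).v ω = D.v (f ω) := rfl

theorem pull_nr (ω : Ω') : (D.pull q f).nr ω = D.nr (f ω) := rfl

theorem pull_hF (h : ℕ) (F : D.Ω → Pl m) (ω : Ω') :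
    (D.pull q f).hF h (fun ω => F (f ω)) ω = D.hF h F (f ω) := by
  unfold hF
  rw [pull_nr, pull_v]

end Dat

/-- The sub-law on the given space. -/
theorem SubL.law {Ω : Type} [Fintype Ω] {p : Ω → ℝ} {c : ℝ} {Ω' : Type} [Fintype Ω'] {q : Ω' → ℝ}
    {f : Ω' → Ω} (h : SubL p c q f) : IsLaw (Pool.Agent.H49.Ent.law q f) := by
  refine ⟨law_nonneg h.isLaw.nonneg f, ?_⟩
  classical
  unfold Pool.Agent.H49.Ent.law
  rw [Finset.sum_comm, ← h.isLaw.sum_one]
  refine Finset.sum_congr rfl fun ω _ => ?_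
  rw [Finset.sum_ite_eq]
  simp

theorem SubL.push {Ω : Type} [Fintype Ω] {Ω' : Type} [Fintype Ω'] (q : Ω' → ℝ)
    (f : Ω' → Ω) {S T : Type} (X : Ω → S) (Y : Ω → T) :
    CH q (fun ω => X (f ω)) (fun ω => Y (f ω)) = CH (Pool.Agent.H49.Ent.law q f) X Y :=
  Pool.OC.RS.CH_push (fun _ => rfl) X Y

/-- Transitivity of sub-laws. -/
theorem SubL.trans {Ω : Type} [Fintype Ω] {p : Ω → ℝ} {c c' : ℝ} {Ω' : Type} [Fintype Ω']
    {q : Ω' → ℝ} {f : Ω' → Ω} (h : SubL p c q f) (hc : 0 ≤ c) {Ω'' : Type} [Fintype Ω'']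
    {q' : Ω'' → ℝ} {f' : Ω'' → Ω'} (h' : SubL q c' q' f') :
    SubL p (c * c') q' (fun w => f (f' w)) := by
  classical
  refine ⟨h'.isLaw, fun ω => ?_⟩
  have e1 : Pool.Agent.H49.Ent.law q' (fun w => f (f' w)) ω =
      Pool.Agent.H49.Ent.law (Pool.Agent.H49.Ent.law q' f') f ω :=
    Pool.OC.RS.law_push (fun _ => rfl) f ω
  rw [e1, mul_assoc]
  refine le_trans (mul_le_mul_of_nonneg_left ?_ hc) (h.dens ω)
  unfold Pool.Agent.H49.Ent.law
  rw [Finset.mul_sum]
  refine Finset.sum_le_sum fun ω' _ => ?_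
  split_ifs with h1
  · exact h'.dens ω'
  · rw [mul_zero]

theorem SubL.mono {Ω : Type} [Fintype Ω] {p : Ω → ℝ} {c c' : ℝ} {Ω' : Type} [Fintype Ω']
    {q : Ω' → ℝ} {f : Ω' → Ω} (h : SubL p c q f) (hc : c' ≤ c) : SubL p c' q f :=
  ⟨h.isLaw, fun ω => (mul_le_mul_of_nonneg_right hc (law_nonneg h.isLaw.nonneg f ω)).trans
    (h.dens ω)⟩

/-- The number of the values of the digits on `M`. -/
theorem on_le (D : Dat m) (hV : ∀ ω c, 0 ≤ D.V ω c ∧ D.V ω c < 2 ^ D.X) (M : Finset (Fin m))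
    {Ω' : Type} [Fintype Ω'] {q : Ω' → ℝ} (hq : IsLaw q) (f : Ω' → D.Ω) {T : Type} (Y : Ω' → T) :
    CH q (fun ω => D.on M (f ω)) Y ≤ M.card * (D.X * Real.log 2) := by
  classical
  have h1 := CH_le_card hq.nonneg hq.sum_one (fun ω => D.on M (f ω)) Y
    (fun _ => Fintype.piFinset fun c => if c ∈ M then Finset.Ico (0 : ℤ) (2 ^ D.X) else {0})
    (fun ω _ => by
      rw [Fintype.mem_piFinset]
      intro c
      unfold Dat.on
      by_cases hc : c ∈ M
      · rw [if_pos hc, if_pos hc, Finset.mem_Ico]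
        exact hV (f ω) c
      · rw [if_neg hc, if_neg hc, Finset.mem_singleton])
  refine h1.trans (le_of_eq ?_)
  rw [Ex_const hq.sum_one, Fintype.card_piFinset]
  have h2 : ∀ c : Fin m, ((if c ∈ M then Finset.Ico (0 : ℤ) (2 ^ D.X) else {0}) : Finset ℤ).card =
      if c ∈ M then 2 ^ D.X else 1 := by
    intro c
    by_cases hc : c ∈ M
    · rw [if_pos hc, if_pos hc, Int.card_Ico, sub_zero]
      have : ((2 : ℤ) ^ D.X).toNat = 2 ^ D.X := by
        rw [← Int.toNat_natCast (2 ^ D.X)]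
        push_cast
        rfl
      exact this
    · rw [if_neg hc, if_neg hc, Finset.card_singleton]
  rw [Finset.prod_congr rfl fun c _ => h2 c, Finset.prod_ite_mem, Finset.univ_inter,
    Finset.prod_const]
  push_cast
  rw [Real.log_pow, Real.log_pow]

/-- **The hypotheses and the claims pass to sub-laws.** -/
theorem sub_stmt : SubStmt := by
  intro m K c hc
  refine ⟨max 1 (1 / c), le_max_left _ _, ?_⟩
  intro D Ω' _ q f b θ hθ hH hS
  have hl := hS.law
  obtain ⟨hc1, ρ, hρ0, hρ1, hmix⟩ := mix hH.isLaw hl hc hS.dens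
  have hlog : Real.log 2 ≤ 1 := by linarith [Real.log_two_lt_d9]
  have hC : (θ + Real.log 2) / c ≤ max 1 (1 / c) * (θ + 1) := by
    have h1 : (θ + Real.log 2) / c ≤ 1 / c * (θ + 1) := by
      rw [div_mul_eq_mul_div, one_mul]
      exact div_le_div_of_nonneg_right (by linarith) hc.le
    exact h1.trans (mul_le_mul_of_nonneg_right (le_max_right _ _) (by linarith))
  have hθC : θ / c ≤ max 1 (1 / c) * (θ + 1) := by
    refine le_trans (div_le_div_of_nonneg_right ?_ hc.le) hC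
    have : 0 ≤ Real.log 2 := Real.log_nonneg one_le_two
    linarith
  -- fullness
  have full : ∀ {T : Type} (M : Finset (Fin m)) (Y : D.Ω → T),
      M.card * (D.X * Real.log 2) - θ ≤ CH D.p (D.on M) Y →
      M.card * (D.X * Real.log 2) - max 1 (1 / c) * (θ + 1) ≤
        CH q (fun ω => D.on M (f ω)) (fun ω => Y (f ω)) := by
    intro T M Y h
    rw [SubL.push q f (D.on M) Y]
    obtain ⟨-, h2⟩ := hmix (D.on M) Y
    have h3 : (1 - c) * CH ρ (fun w => D.on M w.1) (fun w => Y w.1) ≤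
        (1 - c) * (M.card * (D.X * Real.log 2)) := by
      rcases hc1.eq_or_lt with h4 | h4
      · rw [h4, sub_self, zero_mul, zero_mul]
      · exact mul_le_mul_of_nonneg_left (on_le D hH.V_lt M (hρ1 h4) (fun w => w.1) _)
          (by linarith)
    have h5 : (M.card * (D.X * Real.log 2)) - (θ + Real.log 2) / c ≤
        CH (law q f) (D.on M) Y := by
      rw [sub_le_iff_le_add, ← sub_le_iff_le_add']
      rw [le_div_iff₀ hc]
      nlinarith
    linarith
  refine ⟨⟨hS.isLaw, fun ω => hH.V_lt (f ω), hH.h_le, fun ω => hH.s_deg (f ω),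
    fun ω => hH.s_cf (f ω), fun ω => hH.s_vars (f ω), fun ω => hH.nr_le (f ω), ?_⟩, ?_, ?_, ?_⟩
  · have h1 : CH q (fun ω => D.nu (f ω)) (fun ω => (D.V (f ω), D.z (f ω))) =
        CH (law q f) D.nu (fun ω => (D.V ω, D.z ω)) :=
      SubL.push q f D.nu (fun ω => (D.V ω, D.z ω))
    have h2 : CH q (fun ω => D.nu (f ω)) (fun ω => (D.s (f ω), (D.V (f ω), D.z (f ω)))) =
        CH (law q f) D.nu (fun ω => (D.s ω, (D.V ω, D.z ω))) :=
      SubL.push q f D.nu (fun ω => (D.s ω, (D.V ω, D.z ω)))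
    change CH q (fun ω => D.nu (f ω)) (fun ω => (D.V (f ω), D.z (f ω))) ≤
      CH q (fun ω => D.nu (f ω)) (fun ω => (D.s (f ω), (D.V (f ω), D.z (f ω)))) + _
    rw [h1, h2]
    have h3 := (hmix D.nu (fun ω => (D.V ω, D.z ω))).1
    have h4 := (hmix D.nu (fun ω => (D.s ω, (D.V ω, D.z ω)))).2
    have h5 := hH.nu_s
    have h6 : CH ρ (fun w => D.nu w.1) (fun w => (D.s w.1, (D.V w.1, D.z w.1))) ≤
        CH ρ (fun w => D.nu w.1) (fun w => (D.V w.1, D.z w.1)) :=
      CH_mono_cond hρ0 fun w w' _ _ hh => (Prod.ext_iff.mp hh).2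
    have h7 := mul_le_mul_of_nonneg_left h6 (by linarith : (0 : ℝ) ≤ 1 - c)
    have h8 : CH (law q f) D.nu (fun ω => (D.V ω, D.z ω)) ≤
        CH (law q f) D.nu (fun ω => (D.s ω, (D.V ω, D.z ω))) + (θ + Real.log 2) / c := by
      rw [← sub_le_iff_le_add', le_div_iff₀ hc]
      nlinarith
    linarith
  · intro h c₀ κ π hπ hN Ω'' _ q' f' hS'
    have h1 : SubL D.p π q' (fun w => f (f' w)) := by
      have := hS.trans hc.le hS'
      rwa [mul_div_cancel₀ _ hc.ne'] at this
    exact hN Ω'' q' (fun w => f (f' w)) h1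
  · intro M c' c'' h
    exact full M (fun ω => ((D.s ω c', D.s ω c''), (D.out M ω, D.z ω))) h
  · intro M h F hF
    refine ⟨fun ω => hF.vars (f ω), fun ω => hF.deg (f ω), fun ω => hF.cf (f ω), ?_, ?_⟩
    · have h1 : CH q (fun ω => F (f ω)) (fun ω => (D.out M (f ω), D.z (f ω))) =
          CH (law q f) F (fun ω => (D.out M ω, D.z ω)) :=
        SubL.push q f F (fun ω => (D.out M ω, D.z ω))
      change CH q (fun ω => F (f ω)) (fun ω => (D.out M (f ω), D.z (f ω))) ≤ _
      rw [h1]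
      have h2 := (hmix F (fun ω => (D.out M ω, D.z ω))).1
      have h3 := hF.few
      have h4 : 0 ≤ (1 - c) * CH ρ (fun w => F w.1) (fun w => (D.out M w.1, D.z w.1)) :=
        mul_nonneg (by linarith) (CH_nonneg hρ0 _ _)
      have h5 : CH (law q f) F (fun ω => (D.out M ω, D.z ω)) ≤ θ / c := by
        rw [le_div_iff₀ hc]
        linarith
      linarith
    · simp only [Dat.pull_hF]
      exact full M (fun ω => (D.hF h F ω, (F ω, (D.out M ω, D.z ω)))) hF.full

end Pool.TIE
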